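import Pool.Agent.Run7.h860.Om.Unif
import Pool.Agent.H805R3.Kk.Int

set_option autoImplicit false

/-!
# Definable families of lines have bounded overlap
-/

open MeasureTheory Set Filter Topology ENNReal NNReal Metric

namespace Run7.h860.Kk

open Run7.h860.Om Pool.Agent.H803R2.KakFTO Pool.Agent.H805R3.Kk

universe u v

/-- the isolated points of a set are countable in number -/
theorem isolated_countable {d : ℕ} (F : Set (Fin d → ℝ)) :
    {v | v ∈ F ∧ ∃ ε : ℝ, 0 < ε ∧ ∀ w ∈ F, (∀ i, |w i - v i| < ε) → w = v}.Countable := by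
  set S := {v | v ∈ F ∧ ∃ ε : ℝ, 0 < ε ∧ ∀ w ∈ F, (∀ i, |w i - v i| < ε) → w = v} with hS
  choose! ε hε h using fun (v : Fin d → ℝ) (hv : v ∈ S) => hv.2
  obtain ⟨t, htS, htc, hcov⟩ := TopologicalSpace.countable_cover_nhdsWithin (s := S)
    (f := fun x => Metric.ball x (ε x))
    (fun x hx => mem_nhdsWithin_of_mem_nhds (Metric.ball_mem_nhds x (hε x hx)))
  refine htc.mono fun w hw => ?_
  obtain ⟨v, hv, hwv⟩ := mem_iUnion₂.1 (hcov hw)
  have : w = v := by
    refine h v (htS hv) w hw.1 fun i => ?_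
    rw [Metric.mem_ball, dist_pi_lt_iff (hε v (htS hv))] at hwv
    simpa [Real.dist_eq] using hwv i
  rw [this]; exact hv

variable {L : FirstOrder.Language.{u, v}} [L.Structure ℝ] [OMin L]
variable {Γ : Type} [Ctx Γ] {d : ℕ}

/-- a map of `ℝ^d`, on Euclidean space -/
def lift (g : (Fin d → ℝ) → (Fin d → ℝ)) : Vec d → Vec d := fun v => WithLp.toLp 2 (g v.ofLp)

/-- regular points are isolated in their fibres -/
theorem isolated_of_det {Φ : Vec d → Vec d} {v : Vec d} (hd : DifferentiableAt ℝ Φ v)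
    (hdet : (fderiv ℝ Φ v).det ≠ 0) :
    ∃ ε : ℝ, 0 < ε ∧ ∀ w : Fin d → ℝ, (∀ i, |w i - v i| < ε) → Φ (WithLp.toLp 2 w) = Φ v →
      w = v.ofLp := by
  have h1 : ∀ᶠ z in 𝓝[≠] v, Φ z ≠ Φ v := by
    refine hd.hasFDerivAt.eventually_ne ?_
    exact ⟨_, ((fderiv ℝ Φ v).toContinuousLinearEquivOfDetNeZero hdet).antilipschitz⟩
  rw [eventually_nhdsWithin_iff] at h1
  have h2 : ContinuousAt (fun w : Fin d → ℝ => (WithLp.toLp 2 w : Vec d)) v.ofLp :=
    (PiLp.continuous_toLp 2 _).continuousAt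
  have h3 := h2.eventually (p := fun z => z ∈ ({v}ᶜ : Set (Vec d)) → Φ z ≠ Φ v) (by simpa using h1)
  obtain ⟨ε, hε, h4⟩ := Metric.eventually_nhds_iff.1 h3
  refine ⟨ε, hε, fun w hw hΦ => ?_⟩
  by_contra hne
  refine h4 (show dist w v.ofLp < ε by
    rw [dist_pi_lt_iff hε]; intro i; rw [Real.dist_eq]; exact hw i) ?_ hΦ
  intro h5
  refine hne ?_
  rw [← h5]

/-- **Bounded overlap of definable families of lines.** -/
theorem exists_overlap {g : Γ → (Fin d → ℝ) → (Fin d → ℝ)}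
    (hg : DFun L (fun p : Γ × (Fin d → ℝ) => g p.1 p.2)) : ∃ N : ℕ, 1 ≤ N ∧ ∀ (γ : Γ) (t : ℝ),
    ∀ᵐ y : Vec d, {v | DifferentiableAt ℝ (lift (g γ)) v ∧ lift (g γ) v + t • v = y}.encard ≤ N := by
  set A : Set ((Γ × ℝ × (Fin d → ℝ)) × (Fin d → ℝ)) :=
    {p | (∀ i, g p.1.1 p.2 i + p.1.2.1 * p.2 i = p.1.2.2 i) ∧ ∃ ε : ℝ, 0 < ε ∧ ∀ w : Fin d → ℝ,
      (∀ i, g p.1.1 w i + p.1.2.1 * w i = p.1.2.2 i) → (∀ i, |w i - p.2 i| < ε) → w = p.2} with hA
  have hg' : ∀ i, DFun L (fun p : Γ × (Fin d → ℝ) => g p.1 p.2 i) := fun i => by fun_prop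
  have hAD : DPred L (fun p => p ∈ A) := by
    refine DPred.and (DPred.allFin fun i => DPred.eq (DFun.add ?_ (by fun_prop)) (by fun_prop))
      (DPred.ex (DPred.and (DPred.lt (by fun_prop) (by fun_prop)) (DPred.all (DPred.imp
      (DPred.allFin fun i => DPred.eq (DFun.add ?_ (by fun_prop)) (by fun_prop))
      (DPred.imp (DPred.allFin fun i => DPred.lt (by fun_prop) (by fun_prop))
      (DPred.eq (by fun_prop) (by fun_prop)))))))
    · exact (hg' i).comp (f := fun p : (Γ × ℝ × (Fin d → ℝ)) × (Fin d → ℝ) => (p.1.1, p.2))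
        (by fun_prop)
    · exact (hg' i).comp (f := fun p : (((Γ × ℝ × (Fin d → ℝ)) × (Fin d → ℝ)) × ℝ) ×
        (Fin d → ℝ) => (p.1.1.1.1, p.2)) (by fun_prop)
  obtain ⟨N, hN⟩ := uniform_finite hAD (by
    rintro ⟨γ, t, y⟩
    exact isolated_countable {v | ∀ i, g γ v i + t * v i = y i})
  refine ⟨N + 1, by omega, fun γ t => ?_⟩
  set Φ : Vec d → Vec d := fun v => lift (g γ) v + t • v with hΦ
  set S : Set (Vec d) := {v | DifferentiableAt ℝ (lift (g γ)) v ∧ (fderiv ℝ Φ v).det = 0} with hS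
  have hdΦ : ∀ v, DifferentiableAt ℝ (lift (g γ)) v → DifferentiableAt ℝ Φ v := fun v hv =>
    hv.add (differentiableAt_id.const_smul t)
  have hcrit : volume (Φ '' S) = 0 := by
    refine addHaar_image_eq_zero_of_det_fderivWithin_eq_zero volume (f' := fderiv ℝ Φ) ?_ ?_
    · exact fun v hv => (hdΦ v hv.1).hasFDerivAt.hasFDerivWithinAt
    · exact fun v hv => hv.2
  have hae : ∀ᵐ y : Vec d, y ∉ Φ '' S := by
    rw [ae_iff]
    convert hcrit using 2
    ext y; simp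
  filter_upwards [hae] with y hy
  have hinj : InjOn (fun v : Vec d => v.ofLp)
      {v | DifferentiableAt ℝ (lift (g γ)) v ∧ lift (g γ) v + t • v = y} := by
    intro a _ b _ hab
    exact WithLp.ofLp_injective 2 hab
  rw [← hinj.encard_image]
  refine (encard_le_encard ?_).trans ((hN (γ, t, y.ofLp)).trans (by norm_cast; omega))
  rintro _ ⟨v, ⟨hv1, hv2⟩, rfl⟩
  have hdet : (fderiv ℝ Φ v).det ≠ 0 := fun h => hy ⟨v, ⟨hv1, h⟩, hv2⟩
  obtain ⟨ε, hε, hiso⟩ := isolated_of_det (hdΦ v hv1) hdet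
  have hcoord : ∀ w : Fin d → ℝ, (∀ i, g γ w i + t * w i = y i) ↔ Φ (WithLp.toLp 2 w) = y := by
    intro w
    constructor
    · intro h
      ext i
      have := h i
      simpa [hΦ, lift] using this
    · rintro rfl i
      simp [hΦ, lift]
  refine ⟨(hcoord v.ofLp).2 hv2, ε, hε, fun w hw1 hw2 => ?_⟩
  exact hiso w hw2 (((hcoord w).1 hw1).trans hv2.symm)

theorem lift_lipPieces {g : (Fin d → ℝ) → (Fin d → ℝ)} (hg : DFun L g) (B : Set (Vec d)) :
    LipPieces B (lift g) := by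
  obtain ⟨P, hPo, hP0, hPL⟩ := exists_pieces (L := L) hg
  have hc : Continuous (fun v : Vec d => v.ofLp) := PiLp.continuous_ofLp 2 _
  refine ⟨fun k => (fun v : Vec d => v.ofLp) ⁻¹' (P k), fun k => ((hPo k).preimage hc).measurableSet,
    ?_, fun k => ?_⟩
  · refine measure_mono_null (t := (fun v : Vec d => v.ofLp) ⁻¹' (⋃ k, P k)ᶜ) ?_ ?_
    · rintro v ⟨-, hv⟩ h
      refine hv ?_
      simpa using h
    · have hmp := (EuclideanSpace.volume_preserving_symm_measurableEquiv_toLp (Fin d))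
      rw [← hP0, ← hmp.measure_preimage_equiv]
      rfl
  · obtain ⟨C, hC⟩ := hPL k
    have h1 := (PiLp.lipschitzWith_toLp 2 (fun _ : Fin d => ℝ))
    have h2 := (PiLp.lipschitzWith_ofLp 2 (fun _ : Fin d => ℝ))
    exact ⟨_, (h1.comp_lipschitzOnWith hC).comp (h2.lipschitzOnWith (s := _))
      (mapsTo_preimage _ _)⟩

theorem ae_diff_lift {g : (Fin d → ℝ) → (Fin d → ℝ)} (hg : DFun L g) :
    ∀ᵐ v : Vec d, DifferentiableAt ℝ (lift g) v := by
  have h1 := ae_differentiableAt (L := L) hg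
  have hmp := (EuclideanSpace.volume_preserving_symm_measurableEquiv_toLp (Fin d))
  have h2 : volume ((fun v : Vec d => v.ofLp) ⁻¹' {x | ¬ DifferentiableAt ℝ g x}) = 0 := by
    rw [← ae_iff.1 h1, ← hmp.measure_preimage_equiv]
    rfl
  rw [ae_iff]
  refine measure_mono_null ?_ h2
  intro v hv h3
  refine hv ?_
  have e1 : DifferentiableAt ℝ (fun v : Vec d => v.ofLp) v :=
    (PiLp.continuousLinearEquiv 2 ℝ (fun _ : Fin d => ℝ)).differentiableAt
  have e2 : ∀ w, DifferentiableAt ℝ (fun w : Fin d → ℝ => (WithLp.toLp 2 w : Vec d)) w := fun w =>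
    (PiLp.continuousLinearEquiv 2 ℝ (fun _ : Fin d => ℝ)).symm.differentiableAt
  exact (e2 _).comp v ((show DifferentiableAt ℝ g v.ofLp by simpa using h3).comp v e1)

end Run7.h860.Kk
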