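import Pool.Agent.Run7.h860.Om.Branch
import Pool.Agent.Run7.h860.Kk.Over
import Pool.Agent.Results.MP_5168f5_an.BoundedOverlap

set_option autoImplicit false

/-!
# Kakeya maximal estimates for definable families of choices of lines
-/

open MeasureTheory Set Filter Topology ENNReal NNReal Metric

namespace Run7.h860.Kk

open Run7.h860.Om Pool.Agent.H803R2.KakFTO Pool.Agent.H805R3.Kk
open Pool.Agent.Results.MP_5168f5_an

universe u v

/-- The constant. -/
noncomputable def cK (d : ℕ) (hd : 1 ≤ d) (p : ℝ) (hp : (d : ℝ) + 1 ≤ p) : ℝ :=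
  (BoundedOverlap.result d hd p hp).choose

theorem cK_pos (d : ℕ) (hd : 1 ≤ d) (p : ℝ) (hp : (d : ℝ) + 1 ≤ p) : 0 < cK d hd p hp :=
  (BoundedOverlap.result d hd p hp).choose_spec.1

/-- The estimate on `B` for the family `b` with the factor `N`. -/
def Est (d : ℕ) (hd : 1 ≤ d) (p : ℝ) (hp : (d : ℝ) + 1 ≤ p) (N : ℕ) (δ : ℝ) (B : Set (Vec d))
    (b : Vec d → Vec d) : Prop :=
  ∀ f : Space d → ℝ, AEMeasurable f volume → ∫⁻ v in B, lineMax δ b f v ^ p
    ≤ ENNReal.ofReal (cK d hd p hp * N * BoundedOverlap.loss d p δ) * ∫⁻ y, ‖f y‖ₑ ^ p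

variable {L : FirstOrder.Language.{u, v}} [L.Structure ℝ] [OMin L]
variable {Γ : Type} [Ctx Γ] {d : ℕ}

theorem volume_preimage_ofLp (s : Set (Fin d → ℝ)) :
    volume ((fun v : Vec d => v.ofLp) ⁻¹' s) = volume s := by
  have hmp := (EuclideanSpace.volume_preserving_symm_measurableEquiv_toLp (Fin d))
  rw [← hmp.measure_preimage_equiv]
  rfl

theorem nullMeasurableSet_ofLp {S : Set (Fin d → ℝ)} (hS : DPred L (fun x => x ∈ S)) :
    NullMeasurableSet ((fun v : Vec d => v.ofLp) ⁻¹' S) volume := by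
  have hcont : Continuous (fun v : Vec d => v.ofLp) := PiLp.continuous_ofLp 2 _
  have h1 : (fun v : Vec d => v.ofLp) ⁻¹' S = (fun v : Vec d => v.ofLp) ⁻¹' interior S ∪
      (fun v : Vec d => v.ofLp) ⁻¹' (S \ interior S) := by
    rw [← preimage_union, union_sdiff_cancel interior_subset]
  rw [h1]
  refine (isOpen_interior.preimage hcont).measurableSet.nullMeasurableSet.union
    (NullMeasurableSet.of_null ?_)
  rw [volume_preimage_ofLp]
  exact volume_diff_interior (L := L) hS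

theorem aemeasurable_lift {g : (Fin d → ℝ) → (Fin d → ℝ)} (hg : DFun L g) :
    AEMeasurable (lift g) volume := by
  have h1 : ∀ i : Fin d, AEMeasurable (fun v : Vec d => g v.ofLp i) volume := by
    intro i
    refine aemeasurable_of_lt fun c => ?_
    have hgi : DFun L (fun v => g v i) := by fun_prop
    exact nullMeasurableSet_ofLp (L := L) (S := {v | g v i < c}) (DPred.lt hgi (by fun_prop))
  have h2 : AEMeasurable (fun v : Vec d => (fun i => g v.ofLp i : Fin d → ℝ)) volume :=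
    aemeasurable_pi_lambda _ h1
  exact (WithLp.measurable_toLp 2 (Fin d → ℝ)).comp_aemeasurable h2

/-- one definable family of choices -/
theorem est_one (hd : 1 ≤ d) {p : ℝ} (hp : (d : ℝ) + 1 ≤ p) {q : Γ × (Fin d → ℝ) → Fin d → ℝ}
    (hq : DFun L q) : ∃ N : ℕ, 1 ≤ N ∧ ∀ (γ : Γ) (B : Set (Vec d)), NullMeasurableSet B volume →
      B ⊆ closedBall 0 1 → ∀ (δ : ℝ) (b : Vec d → Vec d), 0 < δ → δ < 1 →
      (∀ v ∈ B, ‖b v - lift (fun v => q (γ, v)) v‖ ≤ δ) → Est d hd p hp N δ B b := by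
  obtain ⟨N, hN1, hN⟩ := exists_overlap (L := L) (g := fun (γ : Γ) (v : Fin d → ℝ) => q (γ, v))
    (by fun_prop)
  refine ⟨N, hN1, fun γ B hB hB1 δ b hδ hδ1 hb f hf => ?_⟩
  have hgs : DFun L (fun v : Fin d → ℝ => q (γ, v)) := by fun_prop
  obtain ⟨B1, hB1B, hB1m, hB1ae⟩ := hB.exists_measurable_subset_ae_eq
  set B' : Set (Vec d) := B1 ∩ {v | DifferentiableAt ℝ (lift (fun v => q (γ, v))) v} with hB'
  have hB'm : MeasurableSet B' := hB1m.inter (measurableSet_of_differentiableAt ℝ _)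
  have hB'B : B' ⊆ B := fun v hv => hB1B hv.1
  have hnull : volume (B \ B') = 0 := by
    have h1 : volume (B \ B1) = 0 := (ae_eq_set.1 hB1ae).2
    have h2 := ae_iff.1 (ae_diff_lift (L := L) hgs)
    refine measure_mono_null ?_ (measure_union_null h1 h2)
    rintro v ⟨hv1, hv2⟩
    by_cases hd1 : DifferentiableAt ℝ (lift (fun v => q (γ, v))) v
    · exact Or.inl ⟨hv1, fun h3 => hv2 ⟨h3, hd1⟩⟩
    · exact Or.inr hd1
  refine (BoundedOverlap.result d hd p hp).choose_spec.2 N univ B b δ f hN1 MeasurableSet.univ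
    hB1 hδ hδ1 ⟨lift (fun v => q (γ, v)), B', hB'm, hB'B, hnull,
      lift_lipPieces (L := L) hgs B', ?_, fun v hv => hb v (hB'B hv)⟩ hf
      (fun y t ht => absurd (mem_univ t) ht)
  refine Filter.Eventually.of_forall fun t _ => ?_
  filter_upwards [hN γ t] with y hy
  refine (encard_le_encard ?_).trans hy
  rintro v ⟨hv1, hv2⟩
  exact ⟨hv1.2, hv2⟩

theorem loss_nonneg {d : ℕ} {p δ : ℝ} (hδ : 0 < δ) (hδ1 : δ < 1) :
    0 ≤ BoundedOverlap.loss d p δ := by
  have hlog : 0 ≤ Real.log (1 / δ) := Real.log_nonneg (by rw [le_div_iff₀ hδ]; linarith)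
  unfold BoundedOverlap.loss
  split_ifs
  · positivity
  · exact zero_le_one

/-- the estimate is monotone in the factor -/
theorem Est.mono {hd : 1 ≤ d} {p : ℝ} {hp : (d : ℝ) + 1 ≤ p} {N N' : ℕ} (h : N ≤ N') {δ : ℝ}
    (hδ : 0 < δ) (hδ1 : δ < 1) {B : Set (Vec d)} {b : Vec d → Vec d}
    (he : Est d hd p hp N δ B b) : Est d hd p hp N' δ B b := by
  intro f hf
  refine (he f hf).trans ?_
  have h1 := loss_nonneg (d := d) (p := p) hδ hδ1
  have h2 := (cK_pos d hd p hp).le
  gcongr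

/-- finitely many definable branches, a measurable choice -/
theorem est_branches (hd : 1 ≤ d) {p : ℝ} (hp : (d : ℝ) + 1 ≤ p) (K : ℕ)
    {q : ℕ → Γ × (Fin d → ℝ) → Fin d → ℝ} (hq : ∀ k, DFun L (q k)) :
    ∃ N : ℕ, ∀ (γ : Γ) (B : Set (Vec d)), NullMeasurableSet B volume →
      B ⊆ closedBall 0 1 → ∀ (δ : ℝ) (b : Vec d → Vec d), 0 < δ → δ < 1 → Measurable b →
      (∀ v ∈ B, ∃ k < K, ‖b v - lift (fun v => q k (γ, v)) v‖ ≤ δ) → Est d hd p hp N δ B b := by
  choose N hN1 hN using fun k => est_one (L := L) (Γ := Γ) hd hp (hq k)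
  refine ⟨∑ k ∈ Finset.range K, N k, fun γ B hB hB1 δ b hδ hδ1 hb hbq f hf => ?_⟩
  set E : ℕ → Set (Vec d) := fun k => {v | v ∈ B ∧ ‖b v - lift (fun v => q k (γ, v)) v‖ ≤ δ} with hE
  have hEm : ∀ k, NullMeasurableSet (E k) volume := by
    intro k
    have h1 : AEMeasurable (fun v => ‖b v - lift (fun v => q k (γ, v)) v‖) volume :=
      (hb.aemeasurable.sub (aemeasurable_lift (L := L) (by have := hq k; fun_prop))).norm
    exact hB.inter (h1.nullMeasurableSet_preimage measurableSet_Iic)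
  have hcov : B ⊆ ⋃ k ∈ Finset.range K, E k := by
    intro v hv
    obtain ⟨k, hk, h⟩ := hbq v hv
    exact mem_iUnion₂.2 ⟨k, Finset.mem_range.2 hk, hv, h⟩
  have hl := loss_nonneg (d := d) (p := p) hδ hδ1
  have hc := (cK_pos d hd p hp).le
  have hsum : ∀ n : ℕ, ∫⁻ v in ⋃ k ∈ Finset.range n, E k, lineMax δ b f v ^ p ≤
      ENNReal.ofReal (cK d hd p hp * ((∑ k ∈ Finset.range n, N k : ℕ) : ℝ) *
        BoundedOverlap.loss d p δ) * ∫⁻ y, ‖f y‖ₑ ^ p := by
    intro n
    induction n with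
    | zero => simp
    | succ n ih =>
      have h1 : (⋃ k ∈ Finset.range (n + 1), E k) = (⋃ k ∈ Finset.range n, E k) ∪ E n := by
        rw [Finset.range_add_one, Finset.set_biUnion_insert, union_comm]
      rw [h1]
      refine (lintegral_union_le _ _ _).trans ?_
      have h2 := hN n γ (E n) (hEm n) (fun v hv => hB1 hv.1) δ b hδ hδ1 (fun v hv => hv.2) f hf
      refine (add_le_add ih h2).trans (le_of_eq ?_)
      rw [← add_mul, ← ENNReal.ofReal_add (by positivity) (by positivity), Finset.sum_range_succ]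
      congr 2
      push_cast
      ring
  exact (lintegral_mono_set hcov).trans (hsum K)

end Run7.h860.Kk
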