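import Pool.Agent.Run7.h860.Kk.Over
import Pool.Agent.TH539.GMax

set_option autoImplicit false

/-!
# Lines meeting `d + 1` members of a definable family of sets
-/

open MeasureTheory Set Filter Topology ENNReal NNReal Metric

namespace Run7.h860.Kk

open Run7.h860.Om Pool.Agent.H803R2.KakFTO Pool.Agent.H805R3.Kk Pool.Agent.TH539.SA

universe u v

/-- the member with parameter `s` of a family of subsets of `ℝ^d` -/
def mem {m d : ℕ} (S : Set (Fin m ⊕ Fin d → ℝ)) (s : Fin m → ℝ) : Set (Fin d → ℝ) :=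
  {y | (Sum.elim s y : Fin m ⊕ Fin d → ℝ) ∈ S}

variable {L : FirstOrder.Language.{u, v}} [L.Structure ℝ] [OMin L]

theorem volume_ofLp {d : ℕ} (s : Set (Fin d → ℝ)) :
    volume ((fun v : Vec d => v.ofLp) ⁻¹' s) = volume s := by
  have hmp := (EuclideanSpace.volume_preserving_symm_measurableEquiv_toLp (Fin d))
  rw [← hmp.measure_preimage_equiv]
  rfl

/-- **Velocities of lines meeting `d + 1` members of a definable family.** -/
theorem basic_vel {m d : ℕ} {S : Set (Fin m ⊕ Fin d → ℝ)} (hS : DPred L (fun z => z ∈ S)) :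
    ∃ N : ℕ, 1 ≤ N ∧ ∀ (t : Fin (d + 1) → ℝ), Function.Injective t →
      ∀ (s : Fin (d + 1) → Fin m → ℝ),
      volume {v : Fin d → ℝ | ∃ q : Fin d → ℝ, ∀ i, q + t i • v ∈ mem S (s i)} ≤
        N * ∑ i, wt t i * volume (mem S (s i)) := by
  classical
  have helim : ∀ i : Fin (d + 1), DFun L (fun p : (((Fin (d + 1) × Fin m → ℝ) ×
      (Fin (d + 1) → ℝ)) × (Fin d → ℝ)) × (Fin d → ℝ) =>
      (Sum.elim (fun j => p.1.1.1 (i, j)) (fun l => p.2 l + p.1.1.2 i * p.1.2 l) :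
        Fin m ⊕ Fin d → ℝ)) := by
    intro i
    refine DFun.pi fun k => ?_
    rcases k with k | k
    · simp only [Sum.elim_inl]; fun_prop
    · simp only [Sum.elim_inr]; fun_prop
  set Q : Set ((((Fin (d + 1) × Fin m → ℝ) × (Fin (d + 1) → ℝ)) × (Fin d → ℝ)) × (Fin d → ℝ)) :=
    {p | ∀ i : Fin (d + 1), (Sum.elim (fun j => p.1.1.1 (i, j))
      (fun l => p.2 l + p.1.1.2 i * p.1.2 l) : Fin m ⊕ Fin d → ℝ) ∈ S} with hQ
  have hQD : DPred L (fun p => p ∈ Q) := DPred.allFin fun i => hS.mem (helim i)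
  obtain ⟨q, hq, hqm⟩ := choice (L := L) d
    (((Fin (d + 1) × Fin m → ℝ) × (Fin (d + 1) → ℝ)) × (Fin d → ℝ)) Q hQD
  obtain ⟨N, hN1, hN⟩ := exists_overlap (L := L)
    (g := fun (π : (Fin (d + 1) × Fin m → ℝ) × (Fin (d + 1) → ℝ)) (v : Fin d → ℝ) => q (π, v))
    (by fun_prop)
  refine ⟨N, hN1, fun t ht s => ?_⟩
  set π : (Fin (d + 1) × Fin m → ℝ) × (Fin (d + 1) → ℝ) := (fun ij => s ij.1 ij.2, t) with hπ
  set g : (Fin d → ℝ) → (Fin d → ℝ) := fun v => q (π, v) with hg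
  have hgD : DFun L g := by fun_prop
  set V : Set (Fin d → ℝ) := {v | ∃ w : Fin d → ℝ, ((π, v), w) ∈ Q} with hV
  have hVD : DPred L (fun v => v ∈ V) :=
    DPred.ex (hQD.mem (f := fun p : (Fin d → ℝ) × (Fin d → ℝ) => ((π, p.1), p.2)) (by fun_prop))
  have hVeq : {v : Fin d → ℝ | ∃ q : Fin d → ℝ, ∀ i, q + t i • v ∈ mem S (s i)} = V := by
    ext v
    constructor
    · rintro ⟨w, hw⟩; exact ⟨w, hw⟩
    · rintro ⟨w, hw⟩; exact ⟨w, hw⟩
  rw [hVeq]
  have hcont : Continuous (fun v : Vec d => v.ofLp) := PiLp.continuous_ofLp 2 _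
  set B : Set (Vec d) := ((fun v : Vec d => v.ofLp) ⁻¹' interior V) ∩
    {v | DifferentiableAt ℝ (lift g) v} with hB
  have hBm : MeasurableSet B := (isOpen_interior.preimage hcont).measurableSet.inter
    (measurableSet_of_differentiableAt ℝ _)
  have hvolV : volume V ≤ volume B := by
    have h1 : volume ((fun v : Vec d => v.ofLp) ⁻¹' (V \ interior V)) = 0 := by
      rw [volume_ofLp]; exact volume_diff_interior (L := L) hVD
    have h2 := ae_iff.1 (ae_diff_lift (L := L) hgD)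
    rw [← volume_ofLp V]
    have h3 : (fun v : Vec d => v.ofLp) ⁻¹' V ⊆ B ∪ (((fun v : Vec d => v.ofLp) ⁻¹'
        (V \ interior V)) ∪ {v | ¬ DifferentiableAt ℝ (lift g) v}) := by
      intro v hv
      by_cases h4 : v.ofLp ∈ interior V
      · by_cases h5 : DifferentiableAt ℝ (lift g) v
        · exact Or.inl ⟨h4, h5⟩
        · exact Or.inr (Or.inr h5)
      · exact Or.inr (Or.inl ⟨hv, h4⟩)
    calc volume ((fun v : Vec d => v.ofLp) ⁻¹' V) ≤ _ := measure_mono h3
      _ ≤ volume B + volume (((fun v : Vec d => v.ofLp) ⁻¹'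
        (V \ interior V)) ∪ {v | ¬ DifferentiableAt ℝ (lift g) v}) := measure_union_le _ _
      _ = volume B := by rw [measure_union_null h1 h2, add_zero]
  refine hvolV.trans ?_
  obtain ⟨P, a', a₀, hPm, hPd, hPB, hPae, hder, ha'm, ha₀m, ha₀⟩ :=
    (lift_lipPieces (L := L) hgD B).exists_good hBm
  set B2 := ⋃ k, P k with hB2
  have hv12 : volume B = volume B2 := (measure_congr hPae).symm
  rw [hv12]
  -- measurable sets containing the slices
  set T : Fin (d + 1) → Set (Vec d) := fun i =>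
    toMeasurable volume ((fun v : Vec d => v.ofLp) ⁻¹' mem S (s i)) with hT
  have hTm : ∀ i, MeasurableSet (T i) := fun i => measurableSet_toMeasurable _ _
  have hTv : ∀ i, volume (T i) = volume (mem S (s i)) := fun i => by
    rw [hT, measure_toMeasurable, volume_ofLp]
  have hgS : ∀ i, ∀ v ∈ B2, lift g v + t i • v ∈ T i := by
    intro i v hv
    have h1 : v.ofLp ∈ V := interior_subset (hPB hv).1
    have h2 := hqm (π, v.ofLp) h1
    refine subset_toMeasurable _ _ ?_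
    exact h2 i
  have harea : ∀ i, ∫⁻ x in B2,
      ENNReal.ofReal |(a' x + t i • ContinuousLinearMap.id ℝ (Vec d)).det| ≤
        N * volume (T i) := by
    intro i
    have hder' : ∀ k, ∀ x ∈ P k, HasFDerivWithinAt (fun x => lift g x + t i • x)
        (a' x + t i • ContinuousLinearMap.id ℝ (Vec d)) (P k) x := by
      intro k x hx
      exact (hder k x hx).add ((hasFDerivWithinAt_id x (P k)).const_smul (t i))
    have h1 := lintegral_comp_det_leP (volume : Measure (Vec d)) (N := N) hPm hPd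
      hder' (ha'm.add_const _) (by
        filter_upwards [hN π (t i)] with y hy
        refine le_trans (Set.encard_le_encard ?_) hy
        rintro x ⟨hx, hxy, -⟩
        exact ⟨(hPB hx).2, hxy⟩) (H := (T i).indicator 1) (measurable_one.indicator (hTm i))
    rw [lintegral_indicator_one (hTm i)] at h1
    refine le_trans (le_of_eq ?_) h1
    apply setLIntegral_congr_fun (MeasurableSet.iUnion hPm)
    intro x hx
    have h2 := hgS i x hx
    simp only
    rw [indicator_of_mem h2, Pi.one_apply, one_mul]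
  have hmeas : ∀ i, Measurable (fun x => ENNReal.ofReal
      |(a' x + t i • ContinuousLinearMap.id ℝ (Vec d)).det|) := by
    intro i
    apply Measurable.ennreal_ofReal
    apply Measurable.abs
    exact ContinuousLinearMap.continuous_det.measurable.comp (ha'm.add_const _)
  calc volume B2 = ∫⁻ x in B2, 1 := by simp
    _ ≤ ∫⁻ x in B2, ∑ i, wt t i *
        ENNReal.ofReal |(a' x + t i • ContinuousLinearMap.id ℝ (Vec d)).det| :=
        lintegral_mono fun x => one_le_sum_det ht (a' x)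
    _ = ∑ i, wt t i * ∫⁻ x in B2,
        ENNReal.ofReal |(a' x + t i • ContinuousLinearMap.id ℝ (Vec d)).det| := by
        rw [lintegral_finsetSum _ fun i _ => (hmeas i).const_mul _]
        refine Finset.sum_congr rfl fun i _ => ?_
        rw [lintegral_const_mul _ (hmeas i)]
    _ ≤ ∑ i, wt t i * (N * volume (T i)) := by
        gcongr with i _
        exact harea i
    _ = _ := by
        rw [Finset.mul_sum]
        refine Finset.sum_congr rfl fun i _ => ?_
        rw [hTv]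
        ring

/-- The empty set and the members of the family. -/
def Piece {m d : ℕ} (S : Set (Fin m ⊕ Fin d → ℝ)) (B : Set (Fin d → ℝ)) : Prop :=
  B = ∅ ∨ ∃ s : Fin m → ℝ, B = mem S s

/-- `A` is covered by `N` pieces whose volumes add up to at most `M`. -/
def CoverBy {m d : ℕ} (S : Set (Fin m ⊕ Fin d → ℝ)) (N : ℕ) (M : ℝ≥0∞) (A : Set (Fin d → ℝ)) :
    Prop :=
  ∃ B : Fin N → Set (Fin d → ℝ), (∀ j, Piece S (B j)) ∧ A ⊆ ⋃ j, B j ∧ ∑ j, volume (B j) ≤ M

theorem cover_empty {m d : ℕ} (S : Set (Fin m ⊕ Fin d → ℝ)) (N : ℕ) (M : ℝ≥0∞) :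
    CoverBy S N M (∅ : Set (Fin d → ℝ)) :=
  ⟨fun _ => ∅, fun _ => Or.inl rfl, empty_subset _, by simp⟩

theorem cover_vel {m d : ℕ} (hd : 1 ≤ d) {S : Set (Fin m ⊕ Fin d → ℝ)}
    (hS : DPred L (fun z => z ∈ S)) :
    ∃ Λ : ℕ, 1 ≤ Λ ∧ ∀ N : ℕ, Vel d ((N:ℝ≥0∞) ^ d * (Λ : ℝ≥0∞)) (CoverBy S N) := by
  classical
  obtain ⟨Λ, hΛ1, hΛ⟩ := basic_vel hS
  refine ⟨Λ, hΛ1, fun N => ?_⟩
  intro t ht M A hA
  choose B hBp hAB hBM using hA
  have hpiece : ∀ f : Fin (d + 1) → Fin N,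
      volume {v : Fin d → ℝ | ∃ q : Fin d → ℝ, ∀ i, q + t i • v ∈ B i (f i)} ≤
        (Λ : ℝ≥0∞) * ∑ i, wt t i * volume (B i (f i)) := by
    intro f
    by_cases hemp : ∃ i, B i (f i) = ∅
    · obtain ⟨i, hi⟩ := hemp
      have : {v : Fin d → ℝ | ∃ q : Fin d → ℝ, ∀ i, q + t i • v ∈ B i (f i)} = ∅ := by
        rw [eq_empty_iff_forall_notMem]
        rintro v ⟨q, hq⟩
        have := hq i
        rw [hi] at this
        exact this
      rw [this, measure_empty]
      exact zero_le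
    · push Not at hemp
      have h1 : ∀ i, ∃ s : Fin m → ℝ, B i (f i) = mem S s := fun i =>
        (hBp i (f i)).resolve_left (hemp i).ne_empty
      choose s hs using h1
      simp_rw [hs]
      exact hΛ t ht s
  have hsub : {v : Fin d → ℝ | ∃ q : Fin d → ℝ, ∀ i, q + t i • v ∈ A i} ⊆
      ⋃ f : Fin (d + 1) → Fin N,
        {v : Fin d → ℝ | ∃ q : Fin d → ℝ, ∀ i, q + t i • v ∈ B i (f i)} := by
    rintro v ⟨q, hq⟩
    have : ∀ i, ∃ j, q + t i • v ∈ B i j := fun i => by simpa using hAB i (hq i)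
    choose f hf using this
    exact mem_iUnion.2 ⟨f, q, hf⟩
  have hone : (1:ℝ≥0∞) ≤ 4 ^ d * (d:ℝ≥0∞) ^ d := by
    have h1 : (1:ℝ≥0∞) ≤ 4 ^ d := one_le_pow₀ (by norm_num)
    have h2 : (1:ℝ≥0∞) ≤ (d:ℝ≥0∞) ^ d := one_le_pow₀ (by exact_mod_cast hd)
    calc (1:ℝ≥0∞) = 1 * 1 := (one_mul 1).symm
      _ ≤ _ := mul_le_mul' h1 h2
  calc volume {v : Fin d → ℝ | ∃ q : Fin d → ℝ, ∀ i, q + t i • v ∈ A i}
      ≤ _ := measure_mono hsub
    _ ≤ ∑ f : Fin (d + 1) → Fin N,
        volume {v : Fin d → ℝ | ∃ q : Fin d → ℝ, ∀ i, q + t i • v ∈ B i (f i)} :=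
        measure_iUnion_fintype_le _ _
    _ ≤ ∑ f : Fin (d + 1) → Fin N,
        (Λ : ℝ≥0∞) * ∑ i, wt t i * volume (B i (f i)) :=
        Finset.sum_le_sum fun f _ => hpiece f
    _ = (Λ : ℝ≥0∞) * ∑ i, wt t i * ∑ f : Fin (d + 1) → Fin N, volume (B i (f i)) := by
        rw [← Finset.mul_sum, Finset.sum_comm]
        simp_rw [Finset.mul_sum]
    _ = (Λ : ℝ≥0∞) * ∑ i, wt t i * ((N:ℝ≥0∞) ^ d * ∑ j, volume (B i j)) := by
        congr 1
        refine Finset.sum_congr rfl fun i _ => ?_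
        congr 1
        exact Pool.Agent.TH539.sum_fun_coord N i (fun j => volume (B i j))
    _ ≤ (Λ : ℝ≥0∞) * ∑ i, wt t i * ((N:ℝ≥0∞) ^ d * M i) := by
        gcongr with i _
        exact hBM i
    _ = 1 * ((N:ℝ≥0∞) ^ d * (Λ : ℝ≥0∞)) * ∑ i, M i * ∏ j : Fin d,
          (ENNReal.ofReal |t i - t (i.succAbove j)|)⁻¹ := by
        rw [one_mul, mul_comm ((N:ℝ≥0∞) ^ d), mul_assoc, Finset.mul_sum (a := (N:ℝ≥0∞) ^ d)]
        congr 1
        refine Finset.sum_congr rfl fun i _ => ?_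
        rw [wt_eq ht i]
        ring
    _ ≤ _ := by gcongr

end Run7.h860.Kk
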